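import Mathlib

/-!
Balanced configurations of catenoidal necks (Traizet's model for degenerating families of
complete embedded minimal surfaces of finite total curvature).

`N` horizontal planes, numbered `1, ..., N` from bottom to top, are joined by necks: on level `k`
(between plane `k` and plane `k+1`, `1 ≤ k < N`) there are `n k ≥ 1` necks, all of size `c k > 0`,
at the points `p k i` of the complex plane.
-/

open Finset Polynomial

namespace Pool.Agent.Results.MP_f6dea1_gt.BalancedNecks

/-- A configuration of catenoidal necks between `N` parallel planes. -/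
structure NeckConfig (N : ℕ) where
  /-- number of necks on level `k` (between plane `k` and plane `k+1`) -/
  n : ℕ → ℕ
  /-- common size of the necks of level `k` -/
  c : ℕ → ℝ
  /-- positions of the necks of level `k` -/
  p : (k : ℕ) → Fin (n k) → ℂ
  n_pos : ∀ k, 1 ≤ k → k < N → 1 ≤ n k
  n_zero : n 0 = 0
  n_out : ∀ k, N ≤ k → n k = 0
  c_pos : ∀ k, 1 ≤ k → k < N → 0 < c k
  /-- necks of one level sit at distinct points -/
  inj : ∀ k, Function.Injective (p k)
  /-- necks of adjacent levels sit at distinct points -/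
  disj : ∀ (k : ℕ) (i : Fin (n k)) (j : Fin (n (k + 1))), p k i ≠ p (k + 1) j

namespace NeckConfig

variable {N : ℕ} (C : NeckConfig N)

/-- The force exerted on the `i`-th neck of level `k`. -/
noncomputable def force (k : ℕ) (i : Fin (C.n k)) : ℂ :=
  (∑ j ∈ univ.erase i, 2 * ((C.c k : ℝ) : ℂ) ^ 2 / (C.p k i - C.p k j))
    - (∑ j, ((C.c k : ℝ) : ℂ) * ((C.c (k + 1) : ℝ) : ℂ) / (C.p k i - C.p (k + 1) j))
    - (∑ j, ((C.c k : ℝ) : ℂ) * ((C.c (k - 1) : ℝ) : ℂ) / (C.p k i - C.p (k - 1) j))

/-- The configuration is balanced: all forces vanish. -/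
def Balanced : Prop := ∀ k, 1 ≤ k → k < N → ∀ i, C.force k i = 0

/-- Logarithmic growth of the end modelled on plane `k`. -/
noncomputable def growth (k : ℕ) : ℝ := C.n (k - 1) * C.c (k - 1) - C.n k * C.c k

/-- The logarithmic growths are in the order that embeddedness forces:
`growth 1 ≤ growth 2 ≤ ... ≤ growth N`. -/
def Ordered : Prop := ∀ k, 1 ≤ k → k < N → C.growth k ≤ C.growth (k + 1)

/-- Genus of the surfaces modelled by the configuration: number of necks minus `(N - 1)`. -/
def genus : ℤ := (∑ k ∈ Ico 1 N, (C.n k : ℤ)) - ((N : ℤ) - 1)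

/-- The monic polynomial whose roots are the necks of level `k`. -/
noncomputable def poly (k : ℕ) : ℂ[X] := ∏ i, (X - Polynomial.C (C.p k i))

/-- The configuration is given by the roots of a polynomial of degree `N-1` and of its successive
derivatives, going up, all necks having the same size. -/
def DerivativeUp : Prop :=
  ∀ k, 1 ≤ k → k < N → C.n k = N - k ∧ C.c k = C.c 1 ∧
    derivative (C.poly k) = (C.n k : ℂ[X]) * C.poly (k + 1)

/-- The same going down. -/
def DerivativeDown : Prop :=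
  ∀ k, 1 ≤ k → k < N → C.n k = k ∧ C.c k = C.c 1 ∧
    derivative (C.poly k) = (C.n k : ℂ[X]) * C.poly (k - 1)

end NeckConfig


/-! ### The virial identity -/

lemma pair_sum {m : ℕ} (q : Fin m → ℂ) (hq : Function.Injective q) (a : ℂ) :
    ∑ i, q i * ∑ j ∈ univ.erase i, 2 * a ^ 2 / (q i - q j) = a ^ 2 * (m * (m - 1)) := by
  have h1 : ∀ i, q i * ∑ j ∈ univ.erase i, 2 * a ^ 2 / (q i - q j)
      = ∑ j, if j = i then 0 else 2 * a ^ 2 * q i / (q i - q j) := by
    intro i
    rw [Finset.mul_sum, ← Finset.sum_erase_add _ _ (Finset.mem_univ i)]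
    simp only [if_true, add_zero]
    apply Finset.sum_congr rfl
    intro j hj
    rw [if_neg (Finset.ne_of_mem_erase hj)]
    ring
  have h2 : ∑ i, q i * ∑ j ∈ univ.erase i, 2 * a ^ 2 / (q i - q j)
      = ∑ i, ∑ j, if j = i then 0 else 2 * a ^ 2 * q i / (q i - q j) :=
    Finset.sum_congr rfl (fun i _ => h1 i)
  have h3 : ∑ i, ∑ j, (if j = i then 0 else 2 * a ^ 2 * q i / (q i - q j))
      = ∑ i, ∑ j, if i = j then 0 else 2 * a ^ 2 * q j / (q j - q i) := by
    rw [Finset.sum_comm]
  have h4 : 2 * (∑ i, q i * ∑ j ∈ univ.erase i, 2 * a ^ 2 / (q i - q j))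
      = ∑ i : Fin m, ∑ j : Fin m, (if j = i then 0 else 2 * a ^ 2) := by
    rw [two_mul]
    nth_rewrite 2 [h2]
    rw [h2, h3]
    nth_rewrite 1 [← h3]
    rw [← Finset.sum_add_distrib]
    apply Finset.sum_congr rfl
    intro i _
    rw [← Finset.sum_add_distrib]
    apply Finset.sum_congr rfl
    intro j _
    by_cases hij : j = i
    · simp [hij]
    · have hij' : ¬ i = j := fun h => hij h.symm
      rw [if_neg hij, if_neg hij', if_neg hij]
      have hne : q i - q j ≠ 0 := sub_ne_zero.mpr (fun h => hij' (hq h))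
      have hne' : q j - q i ≠ 0 := sub_ne_zero.mpr (fun h => hij (hq h))
      field_simp
      ring
  have h5 : ∑ i : Fin m, ∑ j : Fin m, (if j = i then (0:ℂ) else 2 * a ^ 2)
      = 2 * (a ^ 2 * (m * (m - 1))) := by
    have : ∀ i : Fin m, ∑ j : Fin m, (if j = i then (0:ℂ) else 2 * a ^ 2)
        = (m - 1) * (2 * a ^ 2) := by
      intro i
      have : ∀ j : Fin m, (if j = i then (0:ℂ) else 2 * a ^ 2)
          = 2 * a ^ 2 - (if j = i then 2 * a ^ 2 else 0) := by
        intro j; split_ifs <;> simp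
      simp_rw [this]
      rw [Finset.sum_sub_distrib]
      simp
      ring
    simp_rw [this]
    simp
    ring
  have h6 := h4.trans h5
  exact mul_left_cancel₀ two_ne_zero h6

lemma cross_sum {m l : ℕ} (q : Fin m → ℂ) (r : Fin l → ℂ) (hqr : ∀ i j, q i ≠ r j) (a b : ℂ) :
    (∑ i, q i * ∑ j, a * b / (q i - r j)) + (∑ j, r j * ∑ i, b * a / (r j - q i))
      = (m * a) * (l * b) := by
  have h1 : (∑ i, q i * ∑ j, a * b / (q i - r j)) = ∑ i, ∑ j, q i * (a * b / (q i - r j)) :=
    Finset.sum_congr rfl (fun i _ => Finset.mul_sum _ _ _)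
  have h2 : (∑ j, r j * ∑ i, b * a / (r j - q i)) = ∑ i, ∑ j, r j * (b * a / (r j - q i)) := by
    rw [Finset.sum_comm]
    exact Finset.sum_congr rfl (fun i _ => Finset.mul_sum _ _ _)
  rw [h1, h2, ← Finset.sum_add_distrib]
  have h3 : ∀ i, (∑ j, q i * (a * b / (q i - r j))) + (∑ j, r j * (b * a / (r j - q i)))
      = l * (a * b) := by
    intro i
    rw [← Finset.sum_add_distrib]
    have : ∀ j, q i * (a * b / (q i - r j)) + r j * (b * a / (r j - q i)) = a * b := by
      intro j
      have hne : q i - r j ≠ 0 := sub_ne_zero.mpr (hqr i j)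
      have hne' : r j - q i ≠ 0 := sub_ne_zero.mpr (fun h => hqr i j h.symm)
      field_simp
      ring
    simp_rw [this]
    simp
  simp_rw [h3]
  simp
  ring

namespace NeckConfig
variable {N : ℕ} (C : NeckConfig N)

/-- the flux `x k = n k * c k` through level `k` -/
noncomputable def flux (k : ℕ) : ℝ := C.n k * C.c k

lemma flux_zero : C.flux 0 = 0 := by simp [flux, C.n_zero]
lemma flux_out {k : ℕ} (h : N ≤ k) : C.flux k = 0 := by simp [flux, C.n_out k h]

lemma virial (hB : C.Balanced) :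
    ∑ k ∈ range N, (C.flux k) ^ 2 - ∑ k ∈ range N, C.flux k * C.flux (k + 1)
      = ∑ k ∈ range N, C.n k * (C.c k) ^ 2 := by
  -- complex version
  have hzero : ∀ k ∈ range N, ∑ i, C.p k i * C.force k i = 0 := by
    intro k hk
    rcases Nat.eq_zero_or_pos k with h0 | hpos
    · subst h0
      have : IsEmpty (Fin (C.n 0)) := by rw [C.n_zero]; infer_instance
      simp
    · apply Finset.sum_eq_zero
      intro i _
      rw [hB k hpos (Finset.mem_range.mp hk) i, mul_zero]
  set a : ℕ → ℂ := fun k => ((C.c k : ℝ) : ℂ) with ha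
  set A : ℕ → ℂ := fun k => ∑ i, C.p k i * ∑ j ∈ univ.erase i, 2 * a k ^ 2 / (C.p k i - C.p k j)
    with hA
  set B : ℕ → ℂ := fun k => ∑ i, C.p k i * ∑ j, a k * a (k + 1) / (C.p k i - C.p (k + 1) j)
    with hBdef
  set D : ℕ → ℂ := fun k => ∑ i, C.p k i * ∑ j, a k * a (k - 1) / (C.p k i - C.p (k - 1) j)
    with hD
  have hsplit : ∀ k, ∑ i, C.p k i * C.force k i = A k - B k - D k := by
    intro k
    simp only [hA, hBdef, hD, ← Finset.sum_sub_distrib, force, ha]
    apply Finset.sum_congr rfl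
    intro i _
    ring
  have hAk : ∀ k, A k = a k ^ 2 * (C.n k * (C.n k - 1)) := fun k => pair_sum _ (C.inj k) _
  have hBD : ∀ k, B k + D (k + 1) = (C.n k * a k) * (C.n (k + 1) * a (k + 1)) := by
    intro k
    exact cross_sum (C.p k) (C.p (k + 1)) (C.disj k) (a k) (a (k + 1))
  have hD0 : D 0 = 0 := by
    have : IsEmpty (Fin (C.n 0)) := by rw [C.n_zero]; infer_instance
    simp [hD]
  have hDN : D N = 0 := by
    have : IsEmpty (Fin (C.n N)) := by rw [C.n_out N le_rfl]; infer_instance
    simp [hD]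
  have hsum0 : ∑ k ∈ range N, (A k - B k - D k) = 0 := by
    apply Finset.sum_eq_zero
    intro k hk
    rw [← hsplit k, hzero k hk]
  have hDshift : ∑ k ∈ range N, D k = ∑ k ∈ range N, D (k + 1) := by
    have h1 := Finset.sum_range_succ D N
    have h2 := Finset.sum_range_succ' D N
    rw [hDN, add_zero] at h1
    rw [hD0, add_zero] at h2
    rw [← h1, h2]
  have hmain : ∑ k ∈ range N, A k = ∑ k ∈ range N, (B k + D (k + 1)) := by
    rw [Finset.sum_sub_distrib, Finset.sum_sub_distrib] at hsum0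
    rw [Finset.sum_add_distrib, ← hDshift]
    linear_combination hsum0
  simp_rw [hAk, hBD] at hmain
  have hreal : ∑ k ∈ range N, (C.c k) ^ 2 * (C.n k * (C.n k - 1))
      = ∑ k ∈ range N, (C.n k * C.c k) * (C.n (k + 1) * C.c (k + 1)) := by
    have := hmain
    simp only [ha] at this
    exact_mod_cast this
  simp only [flux]
  rw [← hreal, ← Finset.sum_sub_distrib]
  apply Finset.sum_congr rfl
  intro k _
  ring

end NeckConfig

lemma sum_by_parts (x φ : ℕ → ℝ) (K : ℕ) :
    ∑ i ∈ range K, φ (i + 1) * (2 * x (i + 1) - x (i + 2) - x i)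
      = ∑ i ∈ range K, x (i + 1) * (2 * φ (i + 1) - φ (i + 2) - φ i)
        + (x K * φ (K + 1) - φ K * x (K + 1)) - (x 0 * φ 1 - φ 0 * x 1) := by
  induction K with
  | zero => simp
  | succ K ih =>
    rw [Finset.sum_range_succ, Finset.sum_range_succ, ih]
    ring

section seq
variable (x : ℕ → ℝ) (M : ℕ) (h0 : x 0 = 0) (hM : x (M + 1) = 0)

lemma green_parabola (h0 : x 0 = 0) (hM : x (M + 1) = 0) :
    ∑ i ∈ range M, (((i : ℝ) + 1) * ((M : ℝ) - i)) * (2 * x (i + 1) - x (i + 2) - x i)
      = 2 * ∑ i ∈ range M, x (i + 1) := by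
  have h := sum_by_parts x (fun k => (k : ℝ) * ((M : ℝ) + 1 - k)) M
  simp only [h0, hM] at h
  have e1 : ∑ i ∈ range M, (((i : ℝ) + 1) * ((M : ℝ) - i)) * (2 * x (i + 1) - x (i + 2) - x i)
      = ∑ i ∈ range M, (((i + 1 : ℕ) : ℝ) * ((M : ℝ) + 1 - ((i + 1 : ℕ) : ℝ)))
          * (2 * x (i + 1) - x (i + 2) - x i) := by
    apply Finset.sum_congr rfl
    intro i _
    push_cast
    ring
  rw [e1, h, Finset.mul_sum]
  have e2 : ∀ i ∈ range M, x (i + 1) * (2 * (((i + 1 : ℕ) : ℝ) * ((M : ℝ) + 1 - ((i + 1 : ℕ) : ℝ)))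
      - (((i + 2 : ℕ) : ℝ) * ((M : ℝ) + 1 - ((i + 2 : ℕ) : ℝ))) - ((i : ℝ) * ((M : ℝ) + 1 - i)))
      = 2 * x (i + 1) := by
    intro i _
    push_cast
    ring
  rw [Finset.sum_congr rfl e2]
  push_cast
  ring

/-- tent function -/
noncomputable def tent (M k : ℕ) (j : ℕ) : ℝ :=
  if j ≤ k then (j : ℝ) * ((M : ℝ) + 1 - k) else (k : ℝ) * ((M : ℝ) + 1 - j)

lemma tent_lap (M k j : ℕ) (hk : 1 ≤ k) :
    2 * tent M k (j + 1) - tent M k (j + 2) - tent M k j = if j + 1 = k then (M : ℝ) + 1 else 0 := by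
  unfold tent
  by_cases h1 : j + 1 = k
  · subst h1
    rw [if_pos le_rfl, if_neg (by omega), if_pos (by omega), if_pos rfl]
    push_cast
    ring
  · rw [if_neg h1]
    by_cases h2 : j + 2 ≤ k
    · rw [if_pos (by omega), if_pos h2, if_pos (by omega)]
      push_cast
      ring
    · -- j + 1 > k
      by_cases h3 : j ≤ k
      · -- j = k
        have : j = k := by omega
        subst this
        rw [if_neg (by omega), if_neg (by omega), if_pos le_rfl]
        push_cast
        ring
      · rw [if_neg (by omega), if_neg (by omega), if_neg (by omega)]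
        push_cast
        ring

lemma green_tent (h0 : x 0 = 0) (hM : x (M + 1) = 0) (k : ℕ) (hk : 1 ≤ k) (hkM : k ≤ M) :
    ∑ i ∈ range M, tent M k (i + 1) * (2 * x (i + 1) - x (i + 2) - x i)
      = ((M : ℝ) + 1) * x k := by
  rw [sum_by_parts x (tent M k) M]
  simp only [tent_lap M k _ hk]
  have e1 : ∑ i ∈ range M, x (i + 1) * (if i + 1 = k then (M : ℝ) + 1 else 0)
      = ((M : ℝ) + 1) * x k := by
    rw [Finset.sum_eq_single (k - 1)]
    · rw [Nat.sub_add_cancel hk, if_pos rfl]; ring
    · intro b _ hb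
      rw [if_neg (by omega), mul_zero]
    · intro h
      exact absurd (Finset.mem_range.mpr (by omega)) h
  rw [e1, h0, hM]
  have t0 : tent M k 0 = 0 := by simp [tent]
  have tM : tent M k (M + 1) = 0 := by
    unfold tent
    rw [if_neg (by omega)]
    push_cast
    ring
  rw [t0, tM]
  ring

lemma tent_le (k j : ℕ) (_hk : 1 ≤ k) (_hkM : k ≤ M) (hj : 1 ≤ j) (hjM : j ≤ M) :
    tent M k j ≤ (j : ℝ) * ((M : ℝ) + 1 - j) := by
  unfold tent
  have hj' : (j : ℝ) ≤ M := by exact_mod_cast hjM
  have hj1 : (1 : ℝ) ≤ j := by exact_mod_cast hj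
  split_ifs with h
  · have : (j : ℝ) ≤ k := by exact_mod_cast h
    nlinarith
  · have : (k : ℝ) ≤ j := by exact_mod_cast (by omega : k ≤ j)
    nlinarith

end seq

section main
variable (x : ℕ → ℝ) (M : ℕ)

/-- height bound for concave sequences -/
lemma height_bound (h0 : x 0 = 0) (hM : x (M + 1) = 0)
    (hc : ∀ i < M, 0 ≤ 2 * x (i + 1) - x (i + 2) - x i) (k : ℕ) (hk : 1 ≤ k) (hkM : k ≤ M) :
    ((M : ℝ) + 1) * x k ≤ 2 * ∑ i ∈ range M, x (i + 1) := by
  rw [← green_tent x M h0 hM k hk hkM, ← green_parabola x M h0 hM]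
  apply Finset.sum_le_sum
  intro i hi
  have hi' := Finset.mem_range.mp hi
  apply mul_le_mul_of_nonneg_right _ (hc i hi')
  have := tent_le M k (i + 1) hk hkM (by omega) (by omega)
  push_cast at this
  linarith

lemma slope_bound (h0 : x 0 = 0) (hM : x (M + 1) = 0)
    (hc : ∀ i < M, 0 ≤ 2 * x (i + 1) - x (i + 2) - x i) :
    (M : ℝ) * ∑ i ∈ range M, (2 * x (i + 1) - x (i + 2) - x i) ≤ 2 * ∑ i ∈ range M, x (i + 1) := by
  rw [← green_parabola x M h0 hM, Finset.mul_sum]
  apply Finset.sum_le_sum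
  intro i hi
  have hi' := Finset.mem_range.mp hi
  apply mul_le_mul_of_nonneg_right _ (hc i hi')
  have h1 : (i : ℝ) + 1 ≤ M := by exact_mod_cast hi'
  have h2 : (0 : ℝ) ≤ i := Nat.cast_nonneg i
  nlinarith

lemma energy_eq (h0 : x 0 = 0) (hM : x (M + 1) = 0) :
    ∑ i ∈ range M, x (i + 1) * (2 * x (i + 1) - x (i + 2) - x i)
      = 2 * (∑ k ∈ range (M + 1), x k ^ 2 - ∑ k ∈ range (M + 1), x k * x (k + 1)) := by
  have e1 : ∑ k ∈ range (M + 1), x k ^ 2 = ∑ i ∈ range M, x (i + 1) ^ 2 := by
    rw [Finset.sum_range_succ', h0]; ring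
  have e2 : ∑ k ∈ range (M + 1), x k * x (k + 1) = ∑ i ∈ range M, x (i + 1) * x (i + 2) := by
    rw [Finset.sum_range_succ', h0]; ring
  have e3 : ∑ k ∈ range (M + 1), x k * x (k + 1) = ∑ i ∈ range M, x i * x (i + 1) := by
    rw [Finset.sum_range_succ, hM]; ring
  have e4 : ∑ i ∈ range M, x (i + 1) * (2 * x (i + 1) - x (i + 2) - x i)
      = 2 * ∑ i ∈ range M, x (i + 1) ^ 2 - ∑ i ∈ range M, x (i + 1) * x (i + 2)
        - ∑ i ∈ range M, x i * x (i + 1) := by
    rw [Finset.mul_sum, ← Finset.sum_sub_distrib, ← Finset.sum_sub_distrib]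
    apply Finset.sum_congr rfl
    intro i _
    ring
  rw [e4, ← e1, ← e2, ← e3]
  ring

end main

namespace NeckConfig

section ineq
variable {M : ℕ} (C : NeckConfig (M + 1))

lemma concave (hO : C.Ordered) (i : ℕ) (hi : i < M) :
    0 ≤ 2 * C.flux (i + 1) - C.flux (i + 2) - C.flux i := by
  have h := hO (i + 1) (by omega) (by omega)
  simp only [growth, Nat.add_sub_cancel] at h
  simp only [flux]
  linarith

/-- sum of the fluxes -/
noncomputable def L : ℝ := ∑ i ∈ range M, C.flux (i + 1)
/-- the quadratic sum of the sizes -/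
noncomputable def T : ℝ := ∑ k ∈ range (M + 1), C.n k * (C.c k) ^ 2
/-- number of necks -/
noncomputable def m : ℝ := ∑ k ∈ range (M + 1), (C.n k : ℝ)
/-- sum of second differences -/
noncomputable def S : ℝ := ∑ i ∈ range M, (2 * C.flux (i + 1) - C.flux (i + 2) - C.flux i)

lemma L_eq : C.L = ∑ k ∈ range (M + 1), C.n k * C.c k := by
  rw [Finset.sum_range_succ']
  simp [L, flux, C.n_zero]

lemma cs_identity : ∑ k ∈ range (M + 1), C.n k * (C.m * C.c k - C.L) ^ 2
    = C.m * (C.m * C.T - C.L ^ 2) := by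
  have h1 : ∀ k ∈ range (M + 1), C.n k * (C.m * C.c k - C.L) ^ 2
      = C.m ^ 2 * (C.n k * C.c k ^ 2) - 2 * C.m * C.L * (C.n k * C.c k) + C.L ^ 2 * C.n k := by
    intro k _
    ring
  rw [Finset.sum_congr rfl h1, Finset.sum_add_distrib, Finset.sum_sub_distrib,
    ← Finset.mul_sum, ← Finset.mul_sum, ← Finset.mul_sum, ← L_eq]
  change C.m ^ 2 * C.T - 2 * C.m * C.L * C.L + C.L ^ 2 * C.m = _
  ring

lemma flux_pos (k : ℕ) (hk : 1 ≤ k) (hkM : k ≤ M) : 0 < C.flux k := by
  have h1 := C.n_pos k hk (by omega)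
  have h2 := C.c_pos k hk (by omega)
  have : (0 : ℝ) < C.n k := by exact_mod_cast h1
  exact mul_pos this h2

lemma L_pos (hM : 1 ≤ M) : 0 < C.L := by
  apply Finset.sum_pos
  · intro i hi
    have := Finset.mem_range.mp hi
    exact C.flux_pos (i + 1) (by omega) (by omega)
  · exact ⟨0, Finset.mem_range.mpr (by omega)⟩

lemma m_pos (hM : 1 ≤ M) : 0 < C.m := by
  apply Finset.sum_pos'
  · intro i _
    exact Nat.cast_nonneg _
  · refine ⟨1, Finset.mem_range.mpr (by omega), ?_⟩
    exact_mod_cast C.n_pos 1 le_rfl (by omega)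

lemma two_T (hB : C.Balanced) :
    ∑ i ∈ range M, C.flux (i + 1) * (2 * C.flux (i + 1) - C.flux (i + 2) - C.flux i) = 2 * C.T := by
  rw [energy_eq C.flux M C.flux_zero (C.flux_out le_rfl), C.virial hB]
  rfl

lemma two_T_le (hB : C.Balanced) (hO : C.Ordered) :
    ((M : ℝ) + 1) * (2 * C.T) ≤ 2 * C.L * C.S := by
  rw [← C.two_T hB, S, Finset.mul_sum, Finset.mul_sum]
  apply Finset.sum_le_sum
  intro i hi
  have hi' := Finset.mem_range.mp hi
  have h1 := height_bound C.flux M C.flux_zero (C.flux_out le_rfl) (C.concave hO) (i + 1)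
    (by omega) (by omega)
  have h2 := C.concave hO i hi'
  calc _ = (((M : ℝ) + 1) * C.flux (i + 1)) * (2 * C.flux (i + 1) - C.flux (i + 2) - C.flux i) := by
        ring
    _ ≤ _ := mul_le_mul_of_nonneg_right h1 h2

lemma S_le (hO : C.Ordered) : (M : ℝ) * C.S ≤ 2 * C.L :=
  slope_bound C.flux M C.flux_zero (C.flux_out le_rfl) (C.concave hO)

lemma T_le (hB : C.Balanced) (hO : C.Ordered) :
    (M : ℝ) * ((M : ℝ) + 1) * C.T ≤ 2 * C.L ^ 2 := by
  have h1 := C.two_T_le hB hO
  have h2 := C.S_le hO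
  have hL : 0 ≤ C.L := by
    apply Finset.sum_nonneg
    intro i hi
    have := Finset.mem_range.mp hi
    exact (C.flux_pos (i + 1) (by omega) (by omega)).le
  have hM : (0 : ℝ) ≤ M := Nat.cast_nonneg M
  nlinarith [mul_le_mul_of_nonneg_left h1 hM, mul_le_mul_of_nonneg_left h2 hL]

lemma cs : C.L ^ 2 ≤ C.m * C.T := by
  by_cases hM : 1 ≤ M
  · have h1 : 0 ≤ C.m * (C.m * C.T - C.L ^ 2) := by
      rw [← C.cs_identity]
      apply Finset.sum_nonneg
      intro k _
      positivity
    have h2 := C.m_pos hM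
    have h3 := nonneg_of_mul_nonneg_right h1 h2
    linarith
  · have : M = 0 := by omega
    subst this
    simp [L, m, C.n_zero]

lemma T_pos (hM : 1 ≤ M) : 0 < C.T := by
  have h1 := C.cs
  have h2 := C.L_pos hM
  have h3 := C.m_pos hM
  have h4 : 0 < C.m * C.T := lt_of_lt_of_le (by positivity) h1
  exact (pos_iff_pos_of_mul_pos h4).mp h3

lemma main_bound (hM : 1 ≤ M) (hB : C.Balanced) (hO : C.Ordered) :
    (M : ℝ) * ((M : ℝ) + 1) ≤ 2 * C.m := by
  have h1 := C.T_le hB hO
  have h2 := C.cs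
  have h3 := C.T_pos hM
  have h4 : ((M : ℝ) * ((M : ℝ) + 1)) * C.T ≤ (2 * C.m) * C.T := by nlinarith
  exact le_of_mul_le_mul_right h4 h3

/-! Equality case -/

lemma eq_case (hM : 1 ≤ M) (hB : C.Balanced) (hO : C.Ordered)
    (he : (M : ℝ) * ((M : ℝ) + 1) = 2 * C.m) :
    C.m * C.T = C.L ^ 2 ∧ (M : ℝ) * C.S = 2 * C.L ∧ ((M : ℝ) + 1) * (2 * C.T) = 2 * C.L * C.S := by
  have h1 := C.T_le hB hO
  have h2 := C.cs
  have hL := C.L_pos hM
  have h3 : C.m * C.T = C.L ^ 2 := by
    apply le_antisymm _ h2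
    have : 2 * C.m * C.T ≤ 2 * C.L ^ 2 := by rw [← he]; exact h1
    linarith
  have h4 := C.two_T_le hB hO
  have h5 := C.S_le hO
  have hMpos : (0 : ℝ) < M := by exact_mod_cast hM
  have h6 : (M : ℝ) * ((M : ℝ) + 1) * C.T = 2 * C.L ^ 2 := by
    rw [he, mul_assoc, h3]
  have h7 : (M : ℝ) * C.S = 2 * C.L := by
    apply le_antisymm h5
    have h8 : (M : ℝ) * (((M : ℝ) + 1) * (2 * C.T)) ≤ M * (2 * C.L * C.S) :=
      mul_le_mul_of_nonneg_left h4 hMpos.le
    have h9 : 2 * C.L * (2 * C.L) ≤ 2 * C.L * ((M : ℝ) * C.S) := by nlinarith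
    exact le_of_mul_le_mul_left h9 (by linarith)
  refine ⟨h3, h7, ?_⟩
  have h10 : (M : ℝ) * (((M : ℝ) + 1) * (2 * C.T)) = M * (2 * C.L * C.S) := by
    have : (M : ℝ) * (2 * C.L * C.S) = 2 * C.L * ((M : ℝ) * C.S) := by ring
    rw [this, h7]
    nlinarith
  exact mul_left_cancel₀ hMpos.ne' h10

lemma eq_c (hM : 1 ≤ M) (h : C.m * C.T = C.L ^ 2) (k : ℕ) (hk : 1 ≤ k) (hkM : k ≤ M) :
    C.c k = C.L / C.m := by
  have hm := C.m_pos hM
  have h1 : ∑ k ∈ range (M + 1), C.n k * (C.m * C.c k - C.L) ^ 2 = 0 := by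
    rw [C.cs_identity, h]; ring
  have h2 := (Finset.sum_eq_zero_iff_of_nonneg (fun i _ => by positivity)).mp h1 k
    (Finset.mem_range.mpr (by omega))
  have h3 : (0 : ℝ) < C.n k := by exact_mod_cast C.n_pos k hk (by omega)
  have h4 : (C.m * C.c k - C.L) ^ 2 = 0 := by
    rcases mul_eq_zero.mp h2 with h | h
    · exact absurd h h3.ne'
    · exact h
  have h5 : C.m * C.c k - C.L = 0 := by
    exact pow_eq_zero_iff (two_ne_zero) |>.mp h4
  field_simp
  linarith

lemma eq_e (hO : C.Ordered) (h : (M : ℝ) * C.S = 2 * C.L) (i : ℕ) (hi : i < M)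
    (hi1 : i ≠ 0) (hi2 : i + 1 ≠ M) : 2 * C.flux (i + 1) - C.flux (i + 2) - C.flux i = 0 := by
  have h1 := green_parabola C.flux M C.flux_zero (C.flux_out le_rfl)
  have h2 : ∑ i ∈ range M, ((((i : ℝ) + 1) * ((M : ℝ) - i)) - M)
      * (2 * C.flux (i + 1) - C.flux (i + 2) - C.flux i) = 0 := by
    have e : ∀ i ∈ range M, ((((i : ℝ) + 1) * ((M : ℝ) - i)) - M)
        * (2 * C.flux (i + 1) - C.flux (i + 2) - C.flux i)
        = (((i : ℝ) + 1) * ((M : ℝ) - i)) * (2 * C.flux (i + 1) - C.flux (i + 2) - C.flux i)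
          - M * (2 * C.flux (i + 1) - C.flux (i + 2) - C.flux i) := by
      intro i _; ring
    rw [Finset.sum_congr rfl e, Finset.sum_sub_distrib, h1, ← Finset.mul_sum]
    change 2 * C.L - M * C.S = 0
    linarith
  have h3 : ∀ i ∈ range M, 0 ≤ ((((i : ℝ) + 1) * ((M : ℝ) - i)) - M)
      * (2 * C.flux (i + 1) - C.flux (i + 2) - C.flux i) := by
    intro i hi
    have hi' := Finset.mem_range.mp hi
    apply mul_nonneg _ (C.concave hO i hi')
    have h1 : (i : ℝ) + 1 ≤ M := by exact_mod_cast hi'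
    have h2 : (0 : ℝ) ≤ i := Nat.cast_nonneg i
    nlinarith
  have h4 := (Finset.sum_eq_zero_iff_of_nonneg h3).mp h2 i (Finset.mem_range.mpr hi)
  rcases mul_eq_zero.mp h4 with h | h
  · exfalso
    have h5 : (1 : ℝ) ≤ i := by exact_mod_cast Nat.one_le_iff_ne_zero.mpr hi1
    have h6 : (i : ℝ) + 2 ≤ M := by exact_mod_cast (by omega : i + 2 ≤ M)
    nlinarith
  · exact h

lemma eq_height (hB : C.Balanced) (hO : C.Ordered)
    (h : ((M : ℝ) + 1) * (2 * C.T) = 2 * C.L * C.S) (i : ℕ) (hi : i < M) :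
    (2 * C.L - ((M : ℝ) + 1) * C.flux (i + 1)) *
      (2 * C.flux (i + 1) - C.flux (i + 2) - C.flux i) = 0 := by
  have h2 : ∑ i ∈ range M, (2 * C.L - ((M : ℝ) + 1) * C.flux (i + 1)) *
      (2 * C.flux (i + 1) - C.flux (i + 2) - C.flux i) = 0 := by
    have e : ∀ i ∈ range M, (2 * C.L - ((M : ℝ) + 1) * C.flux (i + 1)) *
      (2 * C.flux (i + 1) - C.flux (i + 2) - C.flux i)
      = 2 * C.L * (2 * C.flux (i + 1) - C.flux (i + 2) - C.flux i)
        - ((M : ℝ) + 1) * (C.flux (i + 1) *
          (2 * C.flux (i + 1) - C.flux (i + 2) - C.flux i)) := by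
      intro i _; ring
    rw [Finset.sum_congr rfl e, Finset.sum_sub_distrib, ← Finset.mul_sum, ← Finset.mul_sum,
      C.two_T hB]
    change 2 * C.L * C.S - _ = 0
    linarith
  have h3 : ∀ i ∈ range M, 0 ≤ (2 * C.L - ((M : ℝ) + 1) * C.flux (i + 1)) *
      (2 * C.flux (i + 1) - C.flux (i + 2) - C.flux i) := by
    intro i hi
    have hi' := Finset.mem_range.mp hi
    apply mul_nonneg _ (C.concave hO i hi')
    have := height_bound C.flux M C.flux_zero (C.flux_out le_rfl) (C.concave hO) (i + 1)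
      (by omega) (by omega)
    change _ ≤ 2 * C.L at this
    linarith
  exact (Finset.sum_eq_zero_iff_of_nonneg h3).mp h2 i (Finset.mem_range.mpr hi)

end ineq

end NeckConfig

lemma lin_from (x : ℕ → ℝ) (a d : ℝ) (s K : ℕ) (h0 : x s = a) (h1 : x (s + 1) = a + d)
    (h : ∀ i, s ≤ i → i + 2 ≤ K → 2 * x (i + 1) - x (i + 2) - x i = 0) :
    ∀ k, s ≤ k → k ≤ K → 1 ≤ K - s → x k = a + ((k : ℝ) - s) * d := by
  intro k
  induction k using Nat.strong_induction_on with
  | _ k ih =>
    intro hs hk hK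
    rcases Nat.lt_or_ge k (s + 2) with h2 | h2
    · have : k = s ∨ k = s + 1 := by omega
      rcases this with rfl | rfl
      · rw [h0]; ring
      · rw [h1]; push_cast; ring
    · obtain ⟨i, rfl⟩ : ∃ i, k = i + 2 := ⟨k - 2, by omega⟩
      have e := h i (by omega) hk
      have e1 := ih (i + 1) (by omega) (by omega) (by omega) hK
      have e0 := ih i (by omega) (by omega) (by omega) hK
      push_cast at e1 ⊢
      linarith

namespace NeckConfig

section shape
variable {M : ℕ} (C : NeckConfig (M + 1))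

lemma m_eq : C.m = ∑ i ∈ range M, (C.n (i + 1) : ℝ) := by
  rw [m, Finset.sum_range_succ']
  simp [C.n_zero]

lemma sum_id (M : ℕ) : ∑ i ∈ range M, ((i : ℝ) + 1) = (M : ℝ) * ((M : ℝ) + 1) / 2 := by
  induction M with
  | zero => simp
  | succ M ih => rw [Finset.sum_range_succ, ih]; push_cast; ring

lemma sum_rev (M : ℕ) : ∑ i ∈ range M, ((M : ℝ) - i) = (M : ℝ) * ((M : ℝ) + 1) / 2 := by
  have h : ∑ i ∈ range M, ((M : ℝ) - i) + ∑ i ∈ range M, ((i : ℝ) + 1)
      = M * ((M : ℝ) + 1) := by
    rw [← Finset.sum_add_distrib]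
    have : ∀ i ∈ range M, ((M : ℝ) - i) + ((i : ℝ) + 1) = (M : ℝ) + 1 := by
      intro i _; ring
    rw [Finset.sum_congr rfl this]
    simp
    ring
  rw [sum_id] at h
  linarith

lemma shape (hM : 1 ≤ M) (hB : C.Balanced) (hO : C.Ordered)
    (he : (M : ℝ) * ((M : ℝ) + 1) = 2 * C.m) :
    (∀ k, 1 ≤ k → k ≤ M → C.n k = k) ∨ (∀ k, 1 ≤ k → k ≤ M → C.n k = M + 1 - k) := by
  obtain ⟨h1, h2, h3⟩ := C.eq_case hM hB hO he
  have hc := C.eq_c hM h1
  have hlam : 0 < C.L / C.m := div_pos (C.L_pos hM) (C.m_pos hM)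
  have hMpos : (0 : ℝ) < M := by exact_mod_cast hM
  have hflux : ∀ k, 1 ≤ k → k ≤ M → C.flux k = C.n k * (C.L / C.m) := by
    intro k hk hkM
    rw [flux, hc k hk hkM]
  rcases Nat.lt_or_ge M 2 with hM2 | hM2
  · -- M = 1
    have hM1 : M = 1 := by omega
    subst hM1
    left
    intro k hk hk1
    have : k = 1 := by omega
    subst this
    rw [C.m_eq] at he
    simp at he
    have : (C.n 1 : ℝ) = 1 := by linarith
    exact_mod_cast this
  by_cases hfirst : 2 * C.flux (0 + 1) - C.flux (0 + 2) - C.flux 0 = 0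
  · -- linear from the bottom
    left
    have hx : ∀ k, 0 ≤ k → k ≤ M → 1 ≤ M - 0 → C.flux k = 0 + ((k : ℝ) - (0 : ℕ)) * C.flux 1 := by
      apply lin_from C.flux 0 (C.flux 1) 0 M C.flux_zero (by ring)
      intro i _ hi
      rcases Nat.eq_zero_or_pos i with h0 | hpos
      · subst h0; exact hfirst
      · exact C.eq_e hO h2 i (by omega) (by omega) (by omega)
    have hn : ∀ k, 1 ≤ k → k ≤ M → (C.n k : ℝ) = k * C.n 1 := by
      intro k hk hkM
      have e1 := hx k (by omega) hkM (by omega)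
      rw [hflux k hk hkM, hflux 1 le_rfl hM] at e1
      have : (C.L / C.m) * (C.n k : ℝ) = (C.L / C.m) * (k * C.n 1) := by
        push_cast at e1
        linarith
      exact mul_left_cancel₀ hlam.ne' this
    have hsum : C.m = C.n 1 * (∑ i ∈ range M, ((i : ℝ) + 1)) := by
      rw [C.m_eq, Finset.mul_sum]
      apply Finset.sum_congr rfl
      intro i hi
      rw [hn (i + 1) (by omega) (by have := Finset.mem_range.mp hi; omega)]
      push_cast; ring
    rw [sum_id] at hsum
    have hn1 : (C.n 1 : ℝ) = 1 := by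
      have : ((M : ℝ) * ((M : ℝ) + 1)) * C.n 1 = ((M : ℝ) * ((M : ℝ) + 1)) * 1 := by linarith
      exact mul_left_cancel₀ (by positivity) this
    intro k hk hkM
    have := hn k hk hkM
    rw [hn1, mul_one] at this
    exact_mod_cast this
  by_cases hlast : 2 * C.flux (M - 1 + 1) - C.flux (M - 1 + 2) - C.flux (M - 1) = 0
  · right
    have hx : ∀ k, 1 ≤ k → k ≤ M + 1 → 1 ≤ M + 1 - 1 → C.flux k
        = C.flux 1 + ((k : ℝ) - (1 : ℕ)) * (C.flux 2 - C.flux 1) := by
      apply lin_from C.flux (C.flux 1) (C.flux 2 - C.flux 1) 1 (M + 1) rfl (by ring)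
      intro i hi1 hi
      by_cases hi2 : i + 1 = M
      · have : i = M - 1 := by omega
        subst this; exact hlast
      · exact C.eq_e hO h2 i (by omega) (by omega) hi2
    have hend := hx (M + 1) (by omega) le_rfl (by omega)
    rw [C.flux_out le_rfl] at hend
    push_cast at hend
    -- d = - flux 1 / M
    have hxk : ∀ k, 1 ≤ k → k ≤ M → (M : ℝ) * C.flux k = ((M : ℝ) + 1 - k) * C.flux 1 := by
      intro k hk hkM
      have e1 := hx k hk (by omega) (by omega)
      rw [e1]
      push_cast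
      linear_combination (-(k : ℝ) + 1) * hend
    have hn : ∀ k, 1 ≤ k → k ≤ M → (M : ℝ) * C.n k = ((M : ℝ) + 1 - k) * C.n 1 := by
      intro k hk hkM
      have e1 := hxk k hk hkM
      rw [hflux k hk hkM, hflux 1 le_rfl hM] at e1
      have : (C.L / C.m) * ((M : ℝ) * C.n k) = (C.L / C.m) * (((M : ℝ) + 1 - k) * C.n 1) := by
        linarith
      exact mul_left_cancel₀ hlam.ne' this
    have hsum : (M : ℝ) * C.m = C.n 1 * (∑ i ∈ range M, ((M : ℝ) - i)) := by
      rw [C.m_eq, Finset.mul_sum, Finset.mul_sum]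
      apply Finset.sum_congr rfl
      intro i hi
      rw [hn (i + 1) (by omega) (by have := Finset.mem_range.mp hi; omega)]
      push_cast; ring
    rw [sum_rev] at hsum
    have hn1 : (C.n 1 : ℝ) = M := by
      have : ((M : ℝ) * ((M : ℝ) + 1)) * C.n 1 = ((M : ℝ) * ((M : ℝ) + 1)) * M := by
        nlinarith
      exact mul_left_cancel₀ (by positivity) this
    intro k hk hkM
    have e2 := hn k hk hkM
    rw [hn1] at e2
    have e3 : (C.n k : ℝ) = (M : ℝ) + 1 - k := by
      have : (M : ℝ) * C.n k = M * ((M : ℝ) + 1 - k) := by linarith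
      exact mul_left_cancel₀ hMpos.ne' this
    have e4 : (C.n k : ℝ) + k = ((M + 1 : ℕ) : ℝ) := by push_cast; linarith
    have e5 : C.n k + k = M + 1 := by exact_mod_cast e4
    omega
  · -- both nonzero: impossible
    exfalso
    have e1 := C.eq_height hB hO h3 0 (by omega)
    have e2 := C.eq_height hB hO h3 (M - 1) (by omega)
    have f1 : 2 * C.L - ((M : ℝ) + 1) * C.flux (0 + 1) = 0 := by
      rcases mul_eq_zero.mp e1 with h | h
      · exact h
      · exact absurd h hfirst
    have f2 : 2 * C.L - ((M : ℝ) + 1) * C.flux (M - 1 + 1) = 0 := by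
      rcases mul_eq_zero.mp e2 with h | h
      · exact h
      · exact absurd h hlast
    have hM1 : M - 1 + 1 = M := by omega
    rw [hM1] at f2
    have hx : ∀ k, 1 ≤ k → k ≤ M → 1 ≤ M - 1 → C.flux k
        = C.flux 1 + ((k : ℝ) - (1 : ℕ)) * (C.flux 2 - C.flux 1) := by
      apply lin_from C.flux (C.flux 1) (C.flux 2 - C.flux 1) 1 M rfl (by ring)
      intro i hi1 hi
      exact C.eq_e hO h2 i (by omega) (by omega) (by omega)
    have g1 : C.flux M = C.flux 1 := by
      have : ((M : ℝ) + 1) * C.flux M = ((M : ℝ) + 1) * C.flux 1 := by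
        simp only [Nat.zero_add] at f1
        linarith
      exact mul_left_cancel₀ (by positivity) this
    have g2 := hx M hM le_rfl (by omega)
    rw [g1] at g2
    push_cast at g2
    have g3 : C.flux 2 - C.flux 1 = 0 := by
      have hM' : (2 : ℝ) ≤ M := by exact_mod_cast hM2
      have : ((M : ℝ) - 1) * (C.flux 2 - C.flux 1) = 0 := by linarith
      rcases mul_eq_zero.mp this with h | h
      · linarith
      · exact h
    have g4 : C.L = M * C.flux 1 := by
      rw [L]
      have : ∀ i ∈ range M, C.flux (i + 1) = C.flux 1 := by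
        intro i hi
        have := Finset.mem_range.mp hi
        rw [hx (i + 1) (by omega) (by omega) (by omega), g3]
        ring
      rw [Finset.sum_congr rfl this]
      simp
    have g5 := C.flux_pos 1 le_rfl hM
    rw [g4] at f1
    simp only [Nat.zero_add] at f1
    have hM' : (2 : ℝ) ≤ M := by exact_mod_cast hM2
    nlinarith

end shape
end NeckConfig

/-! ### Polynomials -/

lemma eval_prod_sub_ne {m : ℕ} (r : Fin m → ℂ) (a : ℂ) (h : ∀ j, a ≠ r j) (s : Finset (Fin m)) :
    (∏ j ∈ s, (X - Polynomial.C (r j))).eval a ≠ 0 := by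
  rw [Polynomial.eval_prod]
  apply Finset.prod_ne_zero_iff.mpr
  intro j _
  simp only [eval_sub, eval_X, eval_C]
  exact sub_ne_zero.mpr (h j)

lemma log_deriv {m : ℕ} (r : Fin m → ℂ) (a : ℂ) (s : Finset (Fin m)) (h : ∀ j ∈ s, a ≠ r j) :
    (derivative (∏ j ∈ s, (X - Polynomial.C (r j)))).eval a
      = (∏ j ∈ s, (X - Polynomial.C (r j))).eval a * ∑ j ∈ s, 1 / (a - r j) := by
  classical
  induction s using Finset.induction_on with
  | empty => simp
  | insert b s hb ih =>
    rw [Finset.prod_insert hb, Finset.sum_insert hb]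
    have hb' : a - r b ≠ 0 := sub_ne_zero.mpr (h b (Finset.mem_insert_self b s))
    have ih' := ih (fun j hj => h j (Finset.mem_insert_of_mem hj))
    rw [derivative_mul, eval_add, eval_mul, eval_mul, ih', eval_mul]
    simp only [derivative_sub, derivative_X, derivative_C, eval_sub, eval_X, eval_C, eval_one,
      sub_zero]
    field_simp

lemma second_deriv {m : ℕ} (q : Fin m → ℂ) (hq : Function.Injective q) (i : Fin m) :
    (derivative (∏ j, (X - Polynomial.C (q j)))).eval (q i) ≠ 0 ∧
    (derivative (derivative (∏ j, (X - Polynomial.C (q j))))).eval (q i)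
      = (derivative (∏ j, (X - Polynomial.C (q j)))).eval (q i)
        * ∑ j ∈ univ.erase i, 2 / (q i - q j) := by
  classical
  set Q := ∏ j ∈ univ.erase i, (X - Polynomial.C (q j)) with hQ
  have hP : ∏ j, (X - Polynomial.C (q j)) = (X - Polynomial.C (q i)) * Q := by
    exact (Finset.mul_prod_erase univ (fun j => X - Polynomial.C (q j)) (Finset.mem_univ i)).symm
  have hne : ∀ j ∈ univ.erase i, q i ≠ q j := by
    intro j hj h
    exact (Finset.ne_of_mem_erase hj) (hq h).symm
  have h1 : (derivative (∏ j, (X - Polynomial.C (q j)))).eval (q i) = Q.eval (q i) := by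
    rw [hP, derivative_mul]
    simp
  have h2 : (derivative (derivative (∏ j, (X - Polynomial.C (q j))))).eval (q i)
      = 2 * (derivative Q).eval (q i) := by
    rw [hP, derivative_mul, derivative_add, derivative_mul, derivative_mul]
    simp
    ring
  have h3 := log_deriv q (q i) (univ.erase i) hne
  have h4 : Q.eval (q i) ≠ 0 := by
    rw [hQ, Polynomial.eval_prod]
    apply Finset.prod_ne_zero_iff.mpr
    intro j hj
    simp only [eval_sub, eval_X, eval_C]
    exact sub_ne_zero.mpr (hne j hj)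
  refine ⟨h1 ▸ h4, ?_⟩
  have h3' : (derivative Q).eval (q i) = Q.eval (q i) * ∑ j ∈ univ.erase i, 1 / (q i - q j) := h3
  rw [h2, h1, h3']
  have : ∑ j ∈ univ.erase i, 2 / (q i - q j) = 2 * ∑ j ∈ univ.erase i, 1 / (q i - q j) := by
    rw [Finset.mul_sum]
    apply Finset.sum_congr rfl
    intro j _
    ring
  rw [this]
  ring

namespace NeckConfig

section polys
variable {N : ℕ} (C : NeckConfig N)

lemma poly_monic (k : ℕ) : (C.poly k).Monic := by
  unfold poly
  exact monic_prod_of_monic _ _ (fun i _ => monic_X_sub_C _)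

lemma poly_natDegree (k : ℕ) : (C.poly k).natDegree = C.n k := by
  unfold poly
  rw [natDegree_prod_of_monic _ _ (fun i _ => monic_X_sub_C _)]
  simp

lemma poly_root (k : ℕ) (i : Fin (C.n k)) : (C.poly k).eval (C.p k i) = 0 := by
  unfold poly
  rw [Polynomial.eval_prod]
  exact Finset.prod_eq_zero (Finset.mem_univ i) (by simp)

lemma poly_ne_up (k : ℕ) (i : Fin (C.n k)) : (C.poly (k + 1)).eval (C.p k i) ≠ 0 :=
  eval_prod_sub_ne _ _ (fun j => C.disj k i j) _

lemma poly_ne_down (k : ℕ) (i : Fin (C.n (k + 1))) : (C.poly k).eval (C.p (k + 1) i) ≠ 0 :=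
  eval_prod_sub_ne _ _ (fun j => (C.disj k j i).symm) _

/-- the force in terms of the polynomials, when the sizes of the levels `k, k+1, k+2` agree
(or the neighbouring level is void) -/
lemma force_formula (k : ℕ) (i : Fin (C.n (k + 1))) (lam : ℝ)
    (h0 : C.n k = 0 ∨ C.c k = lam) (h1 : C.c (k + 1) = lam)
    (h2 : C.n (k + 2) = 0 ∨ C.c (k + 2) = lam) :
    C.force (k + 1) i = (lam : ℂ) ^ 2 *
      ((derivative (derivative (C.poly (k + 1)))).eval (C.p (k + 1) i)
          / (derivative (C.poly (k + 1))).eval (C.p (k + 1) i)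
        - (derivative (C.poly (k + 2))).eval (C.p (k + 1) i) / (C.poly (k + 2)).eval (C.p (k + 1) i)
        - (derivative (C.poly k)).eval (C.p (k + 1) i) / (C.poly k).eval (C.p (k + 1) i)) := by
  obtain ⟨hne, hsec⟩ := second_deriv (C.p (k + 1)) (C.inj (k + 1)) i
  have hup := log_deriv (C.p (k + 2)) (C.p (k + 1) i) univ (fun j _ => C.disj (k + 1) i j)
  have hdown := log_deriv (C.p k) (C.p (k + 1) i) univ (fun j _ => (C.disj k j i).symm)
  have hupne := C.poly_ne_up (k + 1) i
  have hdownne := C.poly_ne_down k i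
  have e1 : (derivative (derivative (C.poly (k + 1)))).eval (C.p (k + 1) i)
          / (derivative (C.poly (k + 1))).eval (C.p (k + 1) i)
          = ∑ j ∈ univ.erase i, 2 / (C.p (k + 1) i - C.p (k + 1) j) := by
    unfold poly
    rw [hsec, mul_div_cancel_left₀ _ hne]
  have e2 : (derivative (C.poly (k + 2))).eval (C.p (k + 1) i)
      / (C.poly (k + 2)).eval (C.p (k + 1) i) = ∑ j, 1 / (C.p (k + 1) i - C.p (k + 2) j) := by
    unfold poly at hupne ⊢
    rw [hup, mul_div_cancel_left₀ _ hupne]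
  have e3 : (derivative (C.poly k)).eval (C.p (k + 1) i)
      / (C.poly k).eval (C.p (k + 1) i) = ∑ j, 1 / (C.p (k + 1) i - C.p k j) := by
    unfold poly at hdownne ⊢
    rw [hdown, mul_div_cancel_left₀ _ hdownne]
  rw [e1, e2, e3]
  unfold force
  rw [h1, mul_sub, mul_sub, Finset.mul_sum, Finset.mul_sum, Finset.mul_sum]
  congr 1
  · congr 1
    · apply Finset.sum_congr rfl
      intro j _
      ring
    · rcases h2 with h2 | h2
      · have : IsEmpty (Fin (C.n (k + 2))) := by rw [h2]; infer_instance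
        have : IsEmpty (Fin (C.n (k + 1 + 1))) := this
        simp
      · apply Finset.sum_congr rfl
        intro j _
        rw [h2]
        ring
  · rcases h0 with h0 | h0
    · have h' : IsEmpty (Fin (C.n k)) := by rw [h0]; infer_instance
      have : IsEmpty (Fin (C.n (k + 1 - 1))) := h'
      simp
    · apply Finset.sum_congr rfl
      intro j _
      have : C.c (k + 1 - 1) = lam := h0
      rw [this]
      change _ / (C.p (k + 1) i - C.p k j) = _
      ring

/-- two polynomials whose difference is of low degree and vanishes at the necks of a level -/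
lemma deriv_eq_of_roots (k l : ℕ) (hl : C.n l = C.n k + 1) (hk : 1 ≤ C.n k)
    (h : ∀ i, (derivative (C.poly l)).eval (C.p k i) = 0) :
    derivative (C.poly l) = (C.n l : ℂ[X]) * C.poly k := by
  have hdeg : (derivative (C.poly l)).natDegree = C.n k := by
    rw [natDegree_derivative, C.poly_natDegree, hl]
    simp
  have hlead : (derivative (C.poly l)).coeff (C.n k) = C.n l := by
    rw [coeff_derivative]
    have : (C.poly l).coeff (C.n k + 1) = 1 := by
      rw [← hl, ← C.poly_natDegree l]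
      exact C.poly_monic l
    rw [this, hl]
    push_cast
    ring
  have hz : derivative (C.poly l) - (C.n l : ℂ[X]) * C.poly k = 0 := by
    apply Polynomial.eq_zero_of_natDegree_lt_card_of_eval_eq_zero _ (C.inj k)
    · intro i
      rw [eval_sub, eval_mul, h i, C.poly_root]
      simp
    · rw [Fintype.card_fin]
      have hle : (derivative (C.poly l) - (C.n l : ℂ[X]) * C.poly k).natDegree ≤ C.n k := by
        apply (natDegree_sub_le _ _).trans
        apply max_le hdeg.le
        apply (natDegree_mul_le).trans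
        rw [C.poly_natDegree]
        simp
      apply lt_of_le_of_ne hle
      intro heq
      have hc : (derivative (C.poly l) - (C.n l : ℂ[X]) * C.poly k).coeff (C.n k) = 0 := by
        rw [coeff_sub, hlead]
        have : ((C.n l : ℂ[X]) * C.poly k).coeff (C.n k) = C.n l := by
          rw [← Polynomial.C_eq_natCast, coeff_C_mul]
          have : (C.poly k).coeff (C.n k) = 1 := by
            rw [← C.poly_natDegree k]; exact C.poly_monic k
          rw [this, mul_one]
        rw [this, sub_self]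
      have hne : derivative (C.poly l) - (C.n l : ℂ[X]) * C.poly k ≠ 0 := by
        intro h0
        rw [h0] at heq
        simp at heq
        omega
      have := leadingCoeff_ne_zero.mpr hne
      rw [leadingCoeff, heq] at this
      exact this hc
  exact sub_eq_zero.mp hz

end polys
end NeckConfig

namespace NeckConfig

section classify
variable {M : ℕ} (C : NeckConfig (M + 1))

lemma poly_void {N : ℕ} (C : NeckConfig N) {k : ℕ} (h : C.n k = 0) : C.poly k = 1 := by
  have : IsEmpty (Fin (C.n k)) := by rw [h]; infer_instance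
  simp [poly]

lemma deriv_single {N : ℕ} (C : NeckConfig N) {k : ℕ} (h : C.n k = 1) :
    derivative (C.poly k) = 1 := by
  have hdeg : (derivative (C.poly k)).natDegree = 0 := by
    rw [natDegree_derivative, C.poly_natDegree, h]
  rw [eq_C_of_natDegree_eq_zero hdeg, coeff_derivative]
  have : (C.poly k).coeff (0 + 1) = 1 := by
    have := C.poly_monic k
    rw [Monic, leadingCoeff, C.poly_natDegree, h] at this
    simpa using this
  rw [this]
  simp

/-- quotient computation -/
lemma quot_eq {N : ℕ} (C : NeckConfig N) (k l : ℕ) (i : Fin (C.n k)) (hn : 1 ≤ C.n k)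
    (h : derivative (C.poly k) = (C.n k : ℂ[X]) * C.poly l) :
    (derivative (derivative (C.poly k))).eval (C.p k i) / (derivative (C.poly k)).eval (C.p k i)
      = (derivative (C.poly l)).eval (C.p k i) / (C.poly l).eval (C.p k i) := by
  have hn' : (C.n k : ℂ) ≠ 0 := by
    have : C.n k ≠ 0 := by omega
    exact_mod_cast this
  rw [h, derivative_mul]
  simp only [derivative_natCast, zero_mul, zero_add, eval_mul, eval_natCast]
  rw [mul_div_mul_left _ _ hn']

lemma up_of_shape (hB : C.Balanced) (hn : ∀ k, 1 ≤ k → k ≤ M → C.n k = M + 1 - k) (lam : ℝ)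
    (hlam : lam ≠ 0) (hc : ∀ k, 1 ≤ k → k ≤ M → C.c k = lam) :
    ∀ j k, k + j = M → 1 ≤ k → derivative (C.poly k) = (C.n k : ℂ[X]) * C.poly (k + 1) := by
  intro j
  induction j with
  | zero =>
    intro k hk hk1
    have hkM : k = M := by omega
    subst hkM
    have h1 : C.n k = 1 := by rw [hn k hk1 le_rfl]; omega
    rw [C.deriv_single h1, C.poly_void (C.n_out _ le_rfl), h1]
    simp
  | succ j ih =>
    intro k hk hk1
    have ihk := ih (k + 1) (by omega) (by omega)
    have hnk : C.n k = C.n (k + 1) + 1 := by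
      rw [hn k hk1 (by omega), hn (k + 1) (by omega) (by omega)]; omega
    have hnk1 : 1 ≤ C.n (k + 1) := C.n_pos _ (by omega) (by omega)
    apply C.deriv_eq_of_roots (k + 1) k hnk hnk1
    intro i
    have hf := hB (k + 1) (by omega) (by omega) i
    rw [C.force_formula k i lam (Or.inr (hc k hk1 (by omega))) (hc (k + 1) (by omega) (by omega))
      (by
        rcases Nat.lt_or_ge M (k + 2) with h | h
        · exact Or.inl (C.n_out _ (by omega))
        · exact Or.inr (hc _ (by omega) h))] at hf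
    have hq := C.quot_eq (k + 1) (k + 2) i hnk1 ihk
    rw [hq, sub_self, zero_sub] at hf
    have hlam' : (lam : ℂ) ^ 2 ≠ 0 := pow_ne_zero _ (by exact_mod_cast hlam)
    have hf2 := (mul_eq_zero.mp hf).resolve_left hlam'
    rw [neg_eq_zero, div_eq_zero_iff] at hf2
    exact hf2.resolve_right (C.poly_ne_down k i)

lemma down_of_shape (hB : C.Balanced) (hn : ∀ k, 1 ≤ k → k ≤ M → C.n k = k) (lam : ℝ)
    (hlam : lam ≠ 0) (hc : ∀ k, 1 ≤ k → k ≤ M → C.c k = lam) :
    ∀ k, k + 1 ≤ M → derivative (C.poly (k + 1)) = (C.n (k + 1) : ℂ[X]) * C.poly k := by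
  intro k
  induction k with
  | zero =>
    intro h
    have h1 : C.n 1 = 1 := hn 1 le_rfl h
    rw [Nat.zero_add, C.deriv_single h1, C.poly_void C.n_zero, h1]
    simp
  | succ k ih =>
    intro hk
    have ihk := ih (by omega)
    have hnk : C.n (k + 2) = C.n (k + 1) + 1 := by
      rw [hn (k + 1) (by omega) (by omega), hn (k + 2) (by omega) (by omega)]
    have hnk1 : 1 ≤ C.n (k + 1) := C.n_pos _ (by omega) (by omega)
    apply C.deriv_eq_of_roots (k + 1) (k + 2) hnk hnk1
    intro i
    have hf := hB (k + 1) (by omega) (by omega) i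
    rw [C.force_formula k i lam
      (by
        rcases Nat.eq_zero_or_pos k with h | h
        · subst h; exact Or.inl C.n_zero
        · exact Or.inr (hc _ h (by omega)))
      (hc (k + 1) (by omega) (by omega)) (Or.inr (hc (k + 2) (by omega) (by omega)))] at hf
    have hq := C.quot_eq (k + 1) k i hnk1 ihk
    rw [hq] at hf
    have hlam' : (lam : ℂ) ^ 2 ≠ 0 := pow_ne_zero _ (by exact_mod_cast hlam)
    have hf2 := (mul_eq_zero.mp hf).resolve_left hlam'
    have hf3 : (derivative (C.poly (k + 2))).eval (C.p (k + 1) i)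
      / (C.poly (k + 2)).eval (C.p (k + 1) i) = 0 := by
      linear_combination -hf2
    rw [div_eq_zero_iff] at hf3
    exact hf3.resolve_right (C.poly_ne_up (k + 1) i)

lemma balanced_of_up (h : C.DerivativeUp) : C.Balanced := by
  intro k hk hkN i
  obtain ⟨k, rfl⟩ : ∃ k', k = k' + 1 := ⟨k - 1, by omega⟩
  obtain ⟨h1, h2, h3⟩ := h (k + 1) hk hkN
  have hnk1 : 1 ≤ C.n (k + 1) := C.n_pos _ hk hkN
  rw [C.force_formula k i (C.c 1)
    (by
      rcases Nat.eq_zero_or_pos k with h' | h'
      · subst h'; exact Or.inl C.n_zero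
      · exact Or.inr (h k h' (by omega)).2.1)
    h2
    (by
      rcases Nat.lt_or_ge (k + 2) (M + 1) with h' | h'
      · exact Or.inr (h (k + 2) (by omega) h').2.1
      · exact Or.inl (C.n_out _ h')), C.quot_eq (k + 1) (k + 2) i hnk1 h3, sub_self, zero_sub]
  have : (derivative (C.poly k)).eval (C.p (k + 1) i) = 0 := by
    rcases Nat.eq_zero_or_pos k with h' | h'
    · subst h'
      rw [C.poly_void C.n_zero]
      simp
    · rw [(h k h' (by omega)).2.2, eval_mul, C.poly_root, mul_zero]
  rw [this]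
  simp

lemma balanced_of_down (h : C.DerivativeDown) : C.Balanced := by
  intro k hk hkN i
  obtain ⟨k, rfl⟩ : ∃ k', k = k' + 1 := ⟨k - 1, by omega⟩
  obtain ⟨h1, h2, h3⟩ := h (k + 1) hk hkN
  have hnk1 : 1 ≤ C.n (k + 1) := C.n_pos _ hk hkN
  rw [C.force_formula k i (C.c 1)
    (by
      rcases Nat.eq_zero_or_pos k with h' | h'
      · subst h'; exact Or.inl C.n_zero
      · exact Or.inr (h k h' (by omega)).2.1)
    h2
    (by
      rcases Nat.lt_or_ge (k + 2) (M + 1) with h' | h'
      · exact Or.inr (h (k + 2) (by omega) h').2.1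
      · exact Or.inl (C.n_out _ h')), C.quot_eq (k + 1) k i hnk1 h3]
  have : (derivative (C.poly (k + 2))).eval (C.p (k + 1) i) = 0 := by
    rcases Nat.lt_or_ge (k + 2) (M + 1) with h' | h'
    · rw [(h (k + 2) (by omega) h').2.2, eval_mul]
      have := C.poly_root (k + 1) i
      rw [show k + 2 - 1 = k + 1 from rfl, this, mul_zero]
    · rw [C.poly_void (C.n_out _ h')]
      simp
  rw [this]
  simp

lemma ordered_of_up (h : C.DerivativeUp) (hM : 1 ≤ M) : C.Ordered := by
  have hx : ∀ k, 1 ≤ k → k ≤ M + 1 → (C.n k : ℝ) * C.c k = ((M : ℝ) + 1 - k) * C.c 1 := by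
    intro k hk hkM
    rcases Nat.lt_or_ge k (M + 1) with h' | h'
    · obtain ⟨h1, h2, _⟩ := h k hk h'
      rw [h1, h2, Nat.cast_sub (by omega)]
      push_cast
      ring
    · have : k = M + 1 := by omega
      subst this
      rw [C.n_out _ le_rfl]
      push_cast
      ring
  have hc := C.c_pos 1 le_rfl (by omega)
  intro k hk hkN
  obtain ⟨k, rfl⟩ : ∃ k', k = k' + 1 := ⟨k - 1, by omega⟩
  simp only [growth, Nat.add_sub_cancel]
  rw [hx (k + 1) (by omega) (by omega), hx (k + 1 + 1) (by omega) (by omega)]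
  rcases Nat.eq_zero_or_pos k with h' | h'
  · subst h'
    rw [C.n_zero]
    push_cast
    have : (0 : ℝ) ≤ M := Nat.cast_nonneg M
    nlinarith
  · rw [hx k h' (by omega)]
    push_cast
    linarith

lemma ordered_of_down (h : C.DerivativeDown) (hM : 1 ≤ M) : C.Ordered := by
  have hx : ∀ k, k ≤ M → (C.n k : ℝ) * C.c k = k * C.c 1 := by
    intro k hkM
    rcases Nat.eq_zero_or_pos k with h' | h'
    · subst h'
      rw [C.n_zero]; simp
    · obtain ⟨h1, h2, _⟩ := h k h' (by omega)
      rw [h1, h2]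
  have hc := C.c_pos 1 le_rfl (by omega)
  intro k hk hkN
  obtain ⟨k, rfl⟩ : ∃ k', k = k' + 1 := ⟨k - 1, by omega⟩
  simp only [growth, Nat.add_sub_cancel]
  rw [hx k (by omega), hx (k + 1) (by omega)]
  rcases Nat.lt_or_ge (k + 1 + 1) (M + 1) with h' | h'
  · rw [hx (k + 1 + 1) (by omega)]
    push_cast
    linarith
  · rw [C.n_out _ h']
    push_cast
    have : (0 : ℝ) ≤ k := Nat.cast_nonneg k
    nlinarith

lemma two_genus : ((2 * C.genus : ℤ) : ℝ) = 2 * C.m - 2 * M := by
  have : ∑ k ∈ Ico 1 (M + 1), (C.n k : ℤ) = ∑ i ∈ range M, (C.n (i + 1) : ℤ) := by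
    rw [Finset.sum_Ico_eq_sum_range]
    simp only [Nat.add_sub_cancel]
    apply Finset.sum_congr rfl
    intro i _
    rw [Nat.add_comm 1 i]
  rw [genus, this, C.m_eq]
  push_cast
  ring

lemma genus_of_shape
    (hn : (∀ k, 1 ≤ k → k ≤ M → C.n k = k) ∨ (∀ k, 1 ≤ k → k ≤ M → C.n k = M + 1 - k)) :
    2 * C.genus = (((M + 1 : ℕ) : ℤ) - 1) * (((M + 1 : ℕ) : ℤ) - 2) := by
  have h := C.two_genus
  have hm : C.m = (M : ℝ) * ((M : ℝ) + 1) / 2 := by
    rw [C.m_eq]
    rcases hn with hn | hn
    · rw [← sum_id]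
      apply Finset.sum_congr rfl
      intro i hi
      rw [hn (i + 1) (by omega) (by have := Finset.mem_range.mp hi; omega)]
      push_cast; ring
    · rw [← sum_rev]
      apply Finset.sum_congr rfl
      intro i hi
      have := Finset.mem_range.mp hi
      rw [hn (i + 1) (by omega) (by omega), Nat.cast_sub (by omega)]
      push_cast; ring
  rw [hm] at h
  have h2 : ((2 * C.genus : ℤ) : ℝ)
      = (((((M + 1 : ℕ) : ℤ) - 1) * (((M + 1 : ℕ) : ℤ) - 2) : ℤ) : ℝ) := by
    rw [h]
    push_cast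
    ring
  exact_mod_cast h2

end classify
end NeckConfig

/-! ### Existence of extremal configurations -/

section existence

/-- `j`-th derivative of `∏_{i<M} (X - i)` -/
noncomputable def dpoly (M j : ℕ) : ℝ[X] := derivative^[j] (∏ i ∈ range M, (X - Polynomial.C (i : ℝ)))

lemma dpoly_succ (M j : ℕ) : dpoly M (j + 1) = derivative (dpoly M j) := by
  unfold dpoly
  rw [Function.iterate_succ_apply']

lemma dpoly_zero_natDegree (M : ℕ) : (dpoly M 0).natDegree = M := by
  unfold dpoly
  simp only [Function.iterate_zero, id_eq]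
  rw [natDegree_prod_of_monic _ _ (fun i _ => monic_X_sub_C _)]
  simp only [natDegree_X_sub_C, sum_const, card_range, smul_eq_mul, mul_one]

lemma dpoly_natDegree (M j : ℕ) : (dpoly M j).natDegree = M - j := by
  induction j with
  | zero => rw [dpoly_zero_natDegree]; rfl
  | succ j ih => rw [dpoly_succ, natDegree_derivative, ih]; omega

lemma dpoly_zero_roots (M : ℕ) : M ≤ (dpoly M 0).roots.toFinset.card := by
  have hne : dpoly M 0 ≠ 0 := by
    unfold dpoly
    simp only [Function.iterate_zero, id_eq]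
    exact (monic_prod_of_monic _ _ (fun i _ => monic_X_sub_C _)).ne_zero
  have hsub : (range M).image (fun i : ℕ => (i : ℝ)) ⊆ (dpoly M 0).roots.toFinset := by
    intro a ha
    obtain ⟨i, hi, rfl⟩ := Finset.mem_image.mp ha
    rw [Multiset.mem_toFinset, mem_roots hne]
    unfold dpoly
    simp only [Function.iterate_zero, id_eq, IsRoot]
    rw [eval_prod]
    exact Finset.prod_eq_zero hi (by simp)
  calc M = ((range M).image (fun i : ℕ => (i : ℝ))).card := by
        rw [Finset.card_image_of_injective _ Nat.cast_injective, Finset.card_range]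
    _ ≤ _ := Finset.card_le_card hsub

lemma dpoly_roots_ge (M j : ℕ) : M - j ≤ (dpoly M j).roots.toFinset.card := by
  induction j with
  | zero => exact dpoly_zero_roots M
  | succ j ih =>
    have := card_roots_toFinset_le_derivative (dpoly M j)
    rw [← dpoly_succ] at this
    omega

lemma dpoly_roots_card (M j : ℕ) : (dpoly M j).roots.toFinset.card = M - j := by
  apply le_antisymm _ (dpoly_roots_ge M j)
  calc (dpoly M j).roots.toFinset.card ≤ Multiset.card (dpoly M j).roots :=
        Multiset.toFinset_card_le _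
    _ ≤ (dpoly M j).natDegree := card_roots' _
    _ = M - j := dpoly_natDegree M j

lemma dpoly_disjoint (M j : ℕ) :
    Disjoint (dpoly M j).roots.toFinset (dpoly M (j + 1)).roots.toFinset := by
  have h := card_roots_toFinset_le_card_roots_derivative_sdiff_roots_succ (dpoly M j)
  rw [← dpoly_succ, dpoly_roots_card] at h
  have hc := dpoly_roots_card M (j + 1)
  have hsub : (dpoly M (j + 1)).roots.toFinset \ (dpoly M j).roots.toFinset
      ⊆ (dpoly M (j + 1)).roots.toFinset := Finset.sdiff_subset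
  have heq := Finset.eq_of_subset_of_card_le hsub (by omega)
  rw [Finset.disjoint_left]
  intro a ha hb
  rw [← heq] at hb
  exact (Finset.mem_sdiff.mp hb).2 ha

/-- roots of level `k` -/
noncomputable def lvl (M : ℕ) : ℕ → Finset ℝ
  | 0 => ∅
  | k + 1 => (dpoly M k).roots.toFinset

lemma lvl_card (M k : ℕ) (hk : 1 ≤ k) : (lvl M k).card = M + 1 - k := by
  obtain ⟨k, rfl⟩ : ∃ k', k = k' + 1 := ⟨k - 1, by omega⟩
  simp only [lvl]
  rw [dpoly_roots_card]
  omega

lemma lvl_disjoint (M k : ℕ) : Disjoint (lvl M k) (lvl M (k + 1)) := by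
  cases k with
  | zero => simp [lvl]
  | succ k => exact dpoly_disjoint M k

noncomputable def example_config (M : ℕ) : NeckConfig (M + 1) where
  n k := (lvl M k).card
  c _ := 1
  p k i := (((lvl M k).equivFin.symm i : ℝ) : ℂ)
  n_pos k hk hkN := by rw [lvl_card M k hk]; omega
  n_zero := by simp [lvl]
  n_out k hk := by rw [lvl_card M k (by omega)]; omega
  c_pos _ _ _ := one_pos
  inj k i j h := by
    have h1 : (((lvl M k).equivFin.symm i : ℝ)) = ((lvl M k).equivFin.symm j : ℝ) :=
      Complex.ofReal_injective h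
    exact (lvl M k).equivFin.symm.injective (Subtype.ext h1)
  disj k i j h := by
    have h1 : (((lvl M k).equivFin.symm i : ℝ)) = ((lvl M (k + 1)).equivFin.symm j : ℝ) :=
      Complex.ofReal_injective h
    have h2 := ((lvl M k).equivFin.symm i).2
    have h3 := ((lvl M (k + 1)).equivFin.symm j).2
    rw [h1] at h2
    exact Finset.disjoint_left.mp (lvl_disjoint M k) h2 h3

lemma example_poly (M k : ℕ) :
    (example_config M).poly k = (∏ a ∈ lvl M k, (X - Polynomial.C a)).map (algebraMap ℝ ℂ) := by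
  unfold NeckConfig.poly
  rw [Polynomial.map_prod]
  have h1 : ∏ a ∈ lvl M k, Polynomial.map (algebraMap ℝ ℂ) (X - Polynomial.C a)
      = ∏ a : lvl M k, (X - Polynomial.C ((a : ℝ) : ℂ)) := by
    rw [← Finset.prod_coe_sort]
    apply Finset.prod_congr rfl
    intro a _
    simp
  rw [h1]
  exact Equiv.prod_comp (lvl M k).equivFin.symm (fun a => X - Polynomial.C (((a : ℝ)) : ℂ))

lemma dpoly_eq (M k : ℕ) :
    dpoly M k = Polynomial.C (dpoly M k).leadingCoeff * ∏ a ∈ lvl M (k + 1), (X - Polynomial.C a) := by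
  have hcard : Multiset.card (dpoly M k).roots = (dpoly M k).natDegree := by
    apply le_antisymm (card_roots' _)
    rw [dpoly_natDegree, ← dpoly_roots_card M k]
    exact Multiset.toFinset_card_le _
  have hnodup : (dpoly M k).roots.Nodup := by
    rw [← Multiset.toFinset_card_eq_card_iff_nodup, dpoly_roots_card, hcard, dpoly_natDegree]
  have h := C_leadingCoeff_mul_prod_multiset_X_sub_C hcard
  nth_rewrite 1 [← h]
  congr 1
  simp only [lvl]
  rw [Finset.prod]
  congr 1
  rw [Multiset.toFinset_val, Multiset.dedup_eq_self.mpr hnodup]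

lemma example_up (M : ℕ) : (example_config M).DerivativeUp := by
  intro k hk hkN
  refine ⟨lvl_card M k hk, rfl, ?_⟩
  have hn : ∀ k, 1 ≤ k → (example_config M).n k = M + 1 - k := fun k hk => lvl_card M k hk
  rcases Nat.lt_or_ge (k + 1) (M + 1) with h' | h'
  · apply (example_config M).deriv_eq_of_roots (k + 1) k
    · rw [hn k hk, hn (k + 1) (by omega)]; omega
    · rw [hn (k + 1) (by omega)]; omega
    · intro i
      rw [example_poly, derivative_map]
      have hroot : (derivative (∏ a ∈ lvl M k, (X - Polynomial.C a))).eval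
          (((lvl M (k + 1)).equivFin.symm i : ℝ)) = 0 := by
        obtain ⟨k, rfl⟩ : ∃ k', k = k' + 1 := ⟨k - 1, by omega⟩
        have hmem := ((lvl M (k + 1 + 1)).equivFin.symm i).2
        have hne : dpoly M (k + 1) ≠ 0 := by
          intro h0
          have := dpoly_natDegree M (k + 1)
          rw [h0] at this
          simp at this
          omega
        have h1 : (dpoly M (k + 1)).eval (((lvl M (k + 1 + 1)).equivFin.symm i : ℝ)) = 0 := by
          have : (((lvl M (k + 1 + 1)).equivFin.symm i : ℝ)) ∈ (dpoly M (k + 1)).roots.toFinset :=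
            hmem
          rw [Multiset.mem_toFinset, mem_roots hne] at this
          exact this
        rw [dpoly_succ, dpoly_eq M k, derivative_C_mul, eval_mul, eval_C] at h1
        rcases mul_eq_zero.mp h1 with h2 | h2
        · exfalso
          rw [leadingCoeff_eq_zero] at h2
          have := dpoly_natDegree M k
          rw [h2] at this
          simp at this
          omega
        · exact h2
      have hp : (example_config M).p (k + 1) i
          = algebraMap ℝ ℂ (((lvl M (k + 1)).equivFin.symm i : ℝ)) := rfl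
      rw [hp, eval_map_algebraMap, aeval_algebraMap_apply]
      rw [Polynomial.aeval_def, Polynomial.eval₂_eq_eval_map]
      simp only [Algebra.algebraMap_self, Polynomial.map_id]
      rw [hroot, map_zero]
  · have hkM : k = M := by omega
    subst hkM
    have h1 : (example_config k).n k = 1 := by rw [hn k hk]; omega
    rw [(example_config k).deriv_single h1, (example_config k).poly_void
      ((example_config k).n_out _ le_rfl), h1]
    simp

end existence

/-- Sharp genus bound, with the extremal configurations, for balanced configurations of necks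
between `N` planes whose logarithmic growths are ordered. -/
theorem result (N : ℕ) (hN : 2 ≤ N) :
    (∀ C : NeckConfig N, C.Balanced → C.Ordered → ((N : ℤ) - 1) * ((N : ℤ) - 2) ≤ 2 * C.genus) ∧
    (∀ C : NeckConfig N, (C.Balanced ∧ C.Ordered ∧ 2 * C.genus = ((N : ℤ) - 1) * ((N : ℤ) - 2))
      ↔ (C.DerivativeUp ∨ C.DerivativeDown)) ∧
    (∃ C : NeckConfig N, C.Balanced ∧ C.Ordered ∧
      2 * C.genus = ((N : ℤ) - 1) * ((N : ℤ) - 2)) := by
  obtain ⟨M, rfl⟩ : ∃ M, N = M + 1 := ⟨N - 1, by omega⟩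
  have hM : 1 ≤ M := by omega
  have hback : ∀ C : NeckConfig (M + 1), (C.DerivativeUp ∨ C.DerivativeDown) →
      (C.Balanced ∧ C.Ordered ∧
        2 * C.genus = (((M + 1 : ℕ) : ℤ) - 1) * (((M + 1 : ℕ) : ℤ) - 2)) := by
    intro C h
    rcases h with h | h
    · exact ⟨C.balanced_of_up h, C.ordered_of_up h hM,
        C.genus_of_shape (Or.inr (fun k hk hkM => (h k hk (by omega)).1))⟩
    · exact ⟨C.balanced_of_down h, C.ordered_of_down h hM,
        C.genus_of_shape (Or.inl (fun k hk hkM => (h k hk (by omega)).1))⟩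
  refine ⟨?_, ?_, ?_⟩
  · intro C hB hO
    have h := C.main_bound hM hB hO
    have h2 := C.two_genus
    have h3 : (((((M + 1 : ℕ) : ℤ) - 1) * (((M + 1 : ℕ) : ℤ) - 2) : ℤ) : ℝ)
        ≤ ((2 * C.genus : ℤ) : ℝ) := by
      rw [h2]
      push_cast
      nlinarith
    exact_mod_cast h3
  · intro C
    refine ⟨?_, hback C⟩
    rintro ⟨hB, hO, hg⟩
    have h2 := C.two_genus
    rw [hg] at h2
    have he : (M : ℝ) * ((M : ℝ) + 1) = 2 * C.m := by
      push_cast at h2
      nlinarith
    obtain ⟨h1, _, _⟩ := C.eq_case hM hB hO he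
    have hc := C.eq_c hM h1
    have hlam : C.L / C.m ≠ 0 := (div_pos (C.L_pos hM) (C.m_pos hM)).ne'
    rcases C.shape hM hB hO he with hn | hn
    · right
      intro k hk hkN
      refine ⟨hn k hk (by omega), ?_, ?_⟩
      · rw [hc k hk (by omega), hc 1 le_rfl hM]
      · obtain ⟨k, rfl⟩ : ∃ k', k = k' + 1 := ⟨k - 1, by omega⟩
        exact C.down_of_shape hB hn _ hlam hc k (by omega)
    · left
      intro k hk hkN
      refine ⟨hn k hk (by omega), ?_, ?_⟩
      · rw [hc k hk (by omega), hc 1 le_rfl hM]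
      · exact C.up_of_shape hB hn _ hlam hc (M - k) k (by omega) hk
  · exact ⟨example_config M, hback _ (Or.inl (example_up M))⟩

end Pool.Agent.Results.MP_f6dea1_gt.BalancedNecks
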